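import Pool.Agent.Y216.RncE

/-!
MP_5b1cbc_ag, Q1: general type and pseudo-geometric hyperbolicity for varieties over the space of
binary forms, ramified over the forms which vanish at given points.
-/

set_option autoImplicit false

namespace Pool.Agent.Results.MP_5b1cbc_ag.BinaryFormPowers

open Pool.Agent.Y216

/-- Let `(u 1 : v 1), …, (u q : v q)` be distinct points of the projective line and
`∑ i, (1 - 1 / m i) > 2 * n`. Let `V` be a projective variety of dimension `n` with a dominant
rational map to the projective space of the binary forms of degree `n`, such that the ratios of the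
values of the corresponding form over the function field of `V` at the points `(u i : v i)` are
`m i`-th powers. Then `V` is of general type and pseudo-geometrically hyperbolic. -/
theorem result {k : Type} [Field k] [IsAlgClosed k] [CharZero k] {n q : ℕ} (hn : 1 ≤ n)
    (u v : Fin q → k) (huv : ∀ i j, i ≠ j → u i * v j ≠ u j * v i) (m : Fin q → ℕ)
    (hm : ∀ i, 1 ≤ m i) (hsum : 2 * (n : ℝ) < ∑ i, (1 - 1 / (m i : ℝ))) :
    CoversHyperbolic (fun (i : Fin q) (l : Fin (n + 1)) => u i ^ (n - (l : ℕ)) * v i ^ (l : ℕ)) m :=
  covers_rnc hn huv hm hsum

end Pool.Agent.Results.MP_5b1cbc_ag.BinaryFormPowers
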