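import Pool.Agent.Y216.LG.Main

/-!
MP_64ff02_ag, Q1: the generalized Green-Griffiths-Lang conjecture for quasi-projective varieties
over the projective space of the polynomials of degree at most `n`, ramified, possibly with small
multiplicities, over the hyperplanes of the polynomials which vanish at given numbers.
-/

set_option autoImplicit false

open Pool.Agent.W602.Cov.R Pool.Agent.W602.GT Pool.Agent.TH152.HY Pool.Agent.Y191
open Pool.Agent.Y216.LG

namespace Pool.Agent.Results.MP_64ff02_ag.PolynomialSpaceCovers

/-- Let `a i`, `i < q`, be distinct complex numbers, `m i` a multiplicity (a natural number, where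
`0` stands for infinity) and `r ≥ 1` such that the sum of the weights `1 - 1 / ⌈m i / r⌉` is greater
than `2 * n`. Let `X - D` be a quasi-projective variety, `X` and `D` closed in `P^N × P^n`, of
dimension `t`, which is generically finite over its image in `P^n`, the projective space of the
polynomials of degree at most `n`. Suppose that `X - D` is ramified to order at least `m i` over the
hyperplane of the polynomials which vanish at `a i`, for all `i`, and that the polynomial which is
given by the generic point of `X` has no root of multiplicity greater than `r`. Then there is a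
proper closed subset `G = 0` of `X - D`, pulled back from `P^n`, such that

* all holomorphic maps from the punctured disc to `X - D` whose image is not contained in `G = 0`
  extend to the disc (`X - D` is pseudo Picard hyperbolic);
* all nonconstant entire curves in `X - D` lie in `G = 0` (`X - D` is pseudo Brody hyperbolic), and
  so do the images of all nonconstant meromorphic maps from the spaces `ℂ ^ g` which are holomorphic
  maps to `X - D` outside a set of codimension at least two;
* for all `w ≥ 1` such that `n + w * (n + 1 - w)` is less than the sum of the weights, all closed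
  subvarieties of `X - D` of dimension `w` which are not contained in `G = 0` are of log general
  type, and `X - D` is of log general type if `t = w`.

The condition on `w` is satisfied for `w = 1` and for `w = n`, and, if the sum of the weights is
greater than `n + (n + 1) ^ 2 / 4`, for all `w`; then `X - D` is also strongly of log general
type. -/
theorem result {N n q r : ℕ} (hr : 1 ≤ r) (a : Fin q → ℂ) (ha : Function.Injective a)
    (m : Fin q → ℕ) (hsum : 2 * (n : ℝ) < ∑ i, weight r (m i)) (X D : BiSet N n)
    (hR : Ramified X D a m) (K : Type) [Field K] [Algebra ℂ K] (x : Fin (N + 1) → K)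
    (y : Fin (n + 1) → K) (t : ℕ) (hK : X.FunctionField K x y) (hD : ¬ D.Mem x y)
    (halg : Algebra.IsAlgebraic
      (IntermediateField.adjoin ℂ {f : K | ∃ i j, y j ≠ 0 ∧ f = y i / y j}) K)
    (ht : Algebra.trdeg ℂ K = t)
    (hmult : ∀ p : Polynomial K, Irreducible p →
      ¬ p ^ (r + 1) ∣ ∑ l, Polynomial.C (y l) * Polynomial.X ^ (l : ℕ)) :
    ∃ (G : BiPoly N n) (E : ℕ), BiHom G 0 E ∧
      (∃ u v, QMem X D u v ∧ MvPolynomial.eval (Sum.elim u v) G ≠ 0) ∧
      PicardOff X D G ∧ BrodyOff X D G ∧ SemiAbelianOff X D G ∧
      (∀ w : ℕ, 1 ≤ w → ((n + w * (n + 1 - w) : ℕ) : ℝ) < ∑ i, weight r (m i) →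
        LangOffDim X D G w ∧ (t = w → LogGeneralType ℂ K t (CentreIn D x y))) ∧
      ((n : ℝ) + (n + 1) ^ 2 / 4 < ∑ i, weight r (m i) → LangOff X D G) := by
  obtain ⟨G, E, hG, hne, hex, h1, h2, h3, h4⟩ := main_log hr ha hsum hR hK hD halg hmult
  refine ⟨G, E, hG, hex, h1, h2, h3, fun w _ hw => ⟨h4 w hw, ?_⟩, fun hs => ?_⟩
  · rintro rfl
    exact h4 t hw K x y hK.mem hD hne hK.gen ht
  · intro L _ _ x' y' d hx hd hG' hgen htr _
    refine h4 d (lt_of_le_of_lt ?_ hs) L x' y' hx hd hG' hgen htr
    rcases Nat.lt_or_ge n d with h | h
    · have h5 : n + 1 - d = 0 := by omega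
      rw [h5, mul_zero, add_zero]
      have : (0 : ℝ) ≤ (n + 1) ^ 2 / 4 := by positivity
      linarith
    · have h5 : ((n + 1 - d : ℕ) : ℝ) = n + 1 - d := by
        rw [Nat.cast_sub (by omega)]
        push_cast
        ring
      push_cast [h5]
      nlinarith [sq_nonneg ((n : ℝ) + 1 - 2 * d)]

end Pool.Agent.Results.MP_64ff02_ag.PolynomialSpaceCovers
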